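import Pool.Agent.N110.CC.RStm
import Pool.Agent.N110.Geo

/-!
Project CC (helper110): the pull back of a divisor is big only if the divisor is.
-/

set_option autoImplicit false

open FF Pool.Agent.W602.GT Pool.Agent.Y172 Pool.Agent.R887
open Pool.Agent.N110 Pool.Agent.N110.CC

namespace Pool.Agent.N8.CC

theorem leafBGDN (hNORM : S_NORM) (hPSUP : S_PSUP) : S_BGDN := by
  intro K K' _ _ _ _ N N' n y y' hy hy' hn hn' h0n π hπ L L' hL hbig i hi
  obtain ⟨A, hA, hAP⟩ := exists_hyp hy hi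
  obtain ⟨A', hA'fin, hA'e, -⟩ := hPSUP K K' N N' n y y' hy hy' hn hn' h0n π hπ A hA.2
  obtain ⟨i', hi'⟩ := hy'.ne
  obtain ⟨H, hH, hHP⟩ := exists_hyp hy' hi'
  have hA'' : Effective y' (fun Q => max (A' Q) 0) := by
    refine ⟨fun Q _ => le_max_right _ _, hA'fin.subset ?_⟩
    rintro Q ⟨hQ, hQ0⟩
    refine ⟨hQ, fun h => hQ0 ?_⟩
    show max (A' Q) 0 = 0
    rw [h, max_self]
  obtain ⟨f1, s, hf1, hdom⟩ := dominate hy' hA'' hi' hH hHP
  obtain ⟨m, hm, f, hf, hmf⟩ := hbig i' hi'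
  obtain ⟨F, hF⟩ : ∃ F, F = f ^ (s + 1) * f1 := ⟨_, rfl⟩
  have hF0 : F ≠ 0 := by
    rw [hF]
    exact mul_ne_zero (pow_ne_zero _ hf) hf1
  obtain ⟨d, hd, g, hg, hgd⟩ := hNORM K K' N N' n y y' hy hy' hn hn' π hπ F hF0
  refine ⟨d * ((s + 1) * m), Nat.mul_pos hd (Nat.mul_pos (Nat.succ_pos s) hm), g, hg, ?_⟩
  intro P l hP hl
  have h1 := hgd P hP (A P - ((s + 1 : ℕ) : ℚ) * m * L P) (by
    intro Q e hQ hQP
    obtain ⟨l', hl'⟩ := exists_centred hy' Q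
    have h2 := hmf Q l' hQ hl'
    rw [← hHP Q l' hQ hl', hL Q P e hQ hQP] at h2
    have h3 : A' Q ≤ Q.ord f1 + s * H Q := (le_max_left _ _).trans (hdom Q hQ)
    rw [hA'e Q P e hQ hQP] at h3
    have h4 := hH.1 Q hQ
    have h5 : Q.ord F = (s + 1) * Q.ord f + Q.ord f1 := by
      rw [hF, Q.ord_mul (pow_ne_zero _ hf) hf1, Q.ord_pow]
      push_cast
      ring
    rw [h5]
    push_cast
    have h6 : (0 : ℚ) ≤ (s : ℚ) + 1 := by positivity
    have h7 := mul_le_mul_of_nonneg_left h2 h6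
    nlinarith)
  rw [← hAP P l hP hl]
  have h2 := hA.1 P hP
  have h3 : (1 : ℚ) ≤ d := by exact_mod_cast hd
  have h4 : A P ≤ d * A P := le_mul_of_one_le_left h2 h3
  push_cast at h1 ⊢
  nlinarith

end Pool.Agent.N8.CC
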